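import Mathlib

set_option autoImplicit false

namespace Pool.Agent.Results.MP_4bc86c_co.NoRainbowPowTwo

open SimpleGraph

/-- `c` (whose values matter only on the edges, i.e. on the non-diagonal pairs) is a proper
edge-colouring of the complete graph on `V`: two different edges that share a vertex get different
colours. -/
def IsProper {V : Type} (c : Sym2 V → ℕ) : Prop :=
  ∀ e ∈ (⊤ : SimpleGraph V).edgeSet, ∀ f ∈ (⊤ : SimpleGraph V).edgeSet,
    e ≠ f → (∃ v : V, v ∈ e ∧ v ∈ f) → c e ≠ c f

/-- The number of colours that `c` uses on the edges of the complete graph on `V`. -/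
noncomputable def numColours {V : Type} (c : Sym2 V → ℕ) : ℕ :=
  (c '' (⊤ : SimpleGraph V).edgeSet).ncard

/-- `c` is an optimal edge-colouring of the complete graph on `V`: it is proper, and no proper
edge-colouring of the complete graph on `V` uses fewer colours. -/
def IsOptimal {V : Type} (c : Sym2 V → ℕ) : Prop :=
  IsProper c ∧ ∀ c' : Sym2 V → ℕ, IsProper c' → numColours c ≤ numColours c'

/-- The closed walk `p` in the complete graph on `V` is rainbow: no two of its edges have the same
colour. -/
def IsRainbow {V : Type} {v : V} (c : Sym2 V → ℕ) (p : (⊤ : SimpleGraph V).Walk v v) : Prop :=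
  (p.edges.map c).Nodup

/-! ### Lower bounds for the number of colours -/

lemma IsProper.ne {V : Type} {c : Sym2 V → ℕ} (hc : IsProper c) {x y z : V} (hxy : x ≠ y)
    (hxz : x ≠ z) (hyz : y ≠ z) : c s(x, y) ≠ c s(x, z) := by
  refine hc _ (by simpa using hxy) _ (by simpa using hxz) ?_ ⟨x, by simp, by simp⟩
  intro h
  rw [Sym2.eq_iff] at h
  rcases h with h | h
  · exact hyz h.2
  · exact hxz h.1

lemma star_card {V : Type} [Fintype V] [DecidableEq V] {c : Sym2 V → ℕ} (hc : IsProper c)
    (x : V) : ((Finset.univ.erase x).image (fun y => c s(x, y))).card = Fintype.card V - 1 := by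
  rw [Finset.card_image_of_injOn]
  · rw [Finset.card_erase_of_mem (Finset.mem_univ _), Finset.card_univ]
  · intro y hy z hz h
    by_contra hyz
    simp only [Finset.coe_erase, Finset.coe_univ, Set.mem_sdiff, Set.mem_univ,
      Set.mem_singleton_iff, true_and] at hy hz
    exact hc.ne (Ne.symm hy) (Ne.symm hz) hyz h

lemma star_subset {V : Type} [Fintype V] [DecidableEq V] (c : Sym2 V → ℕ)
    (x : V) : (((Finset.univ.erase x).image (fun y => c s(x, y)) : Finset ℕ) : Set ℕ) ⊆
      c '' (⊤ : SimpleGraph V).edgeSet := by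
  intro a ha
  simp only [Finset.coe_image, Set.mem_image, Finset.coe_erase, Finset.coe_univ, Set.mem_sdiff,
    Set.mem_univ, Set.mem_singleton_iff, true_and] at ha
  obtain ⟨y, hy, rfl⟩ := ha
  exact ⟨s(x, y), by simpa using Ne.symm hy, rfl⟩

lemma finite_colours {V : Type} [Fintype V] (c : Sym2 V → ℕ) :
    (c '' (⊤ : SimpleGraph V).edgeSet).Finite := by
  classical
  exact (Set.toFinite _).image _

lemma lower_even {V : Type} [Fintype V] {c : Sym2 V → ℕ} (hc : IsProper c) :
    Fintype.card V - 1 ≤ numColours c := by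
  classical
  rcases isEmpty_or_nonempty V with h | ⟨⟨x⟩⟩
  · simp
  · rw [← star_card hc x, ← Set.ncard_coe_finset]
    exact Set.ncard_le_ncard (star_subset c x) (finite_colours c)

lemma lower_odd {V : Type} [Fintype V] {c : Sym2 V → ℕ} (hc : IsProper c)
    (hodd : Odd (Fintype.card V)) (h3 : 3 ≤ Fintype.card V) :
    Fintype.card V ≤ numColours c := by
  classical
  by_contra hlt
  push Not at hlt
  -- every star sees all the colours
  have hall : ∀ x : V, (((Finset.univ.erase x).image (fun y => c s(x, y)) : Finset ℕ) : Set ℕ) =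
      c '' (⊤ : SimpleGraph V).edgeSet := by
    intro x
    refine Set.eq_of_subset_of_ncard_le (star_subset c x) ?_ (finite_colours c)
    rw [Set.ncard_coe_finset, star_card hc x]
    unfold numColours at hlt
    omega
  -- pick an edge
  obtain ⟨u, w, huw⟩ : ∃ u w : V, u ≠ w := by
    have : 1 < Fintype.card V := by omega
    exact Fintype.exists_pair_of_one_lt_card this
  set a := c s(u, w) with ha
  have hex : ∀ x : V, ∃ y : V, x ≠ y ∧ c s(x, y) = a := by
    intro x
    have : a ∈ c '' (⊤ : SimpleGraph V).edgeSet := ⟨s(u, w), by simpa using huw, rfl⟩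
    rw [← hall x] at this
    simp only [Finset.coe_image, Set.mem_image, Finset.coe_erase, Finset.coe_univ, Set.mem_sdiff,
      Set.mem_univ, Set.mem_singleton_iff, true_and] at this
    obtain ⟨y, hy, h⟩ := this
    exact ⟨y, Ne.symm hy, h⟩
  choose g hg1 hg2 using hex
  have hinv : ∀ x, g (g x) = x := by
    intro x
    by_contra hne
    have h1 : c s(g x, x) = a := by rw [Sym2.eq_swap]; exact hg2 x
    exact hc.ne (hg1 (g x)) (Ne.symm (hg1 x)) hne ((hg2 (g x)).trans h1.symm)
  have hsum : ∑ x : V, (1 : ZMod 2) = 0 := by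
    refine Finset.sum_involution (fun x _ => g x) ?_ ?_ ?_ ?_
    · intro x _; decide
    · intro x _ _; exact Ne.symm (hg1 x)
    · intro x _; exact Finset.mem_univ _
    · intro x _; exact hinv x
  rw [Finset.sum_const, Finset.card_univ, nsmul_eq_mul, mul_one] at hsum
  rw [ZMod.natCast_eq_zero_iff] at hsum
  exact (Nat.not_even_iff_odd.mpr hodd) (even_iff_two_dvd.mpr hsum)

/-! ### The colouring -/

/-- The sum of the labels of the two ends of a pair. -/
def pairSum {V : Type} {k : ℕ} (φ : V → (Fin k → ZMod 2)) : Sym2 V → (Fin k → ZMod 2) :=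
  Sym2.lift ⟨fun x y => φ x + φ y, fun _ _ => add_comm _ _⟩

@[simp] lemma pairSum_mk {V : Type} {k : ℕ} (φ : V → (Fin k → ZMod 2)) (x y : V) :
    pairSum φ s(x, y) = φ x + φ y := rfl

lemma add_self' {k : ℕ} (x : Fin k → ZMod 2) : x + x = 0 := by
  funext i
  simp only [Pi.add_apply, Pi.zero_apply]
  exact CharTwo.add_self_eq_zero _

lemma eq_of_add_eq_zero' {k : ℕ} {x y : Fin k → ZMod 2} (h : x + y = 0) : x = y := by
  have := congrArg (fun z => z + y) h
  simp only [zero_add] at this
  rwa [add_assoc, add_self', add_zero] at this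

lemma walk_sum {V : Type} {k : ℕ} (φ : V → (Fin k → ZMod 2)) {u v : V}
    (p : (⊤ : SimpleGraph V).Walk u v) : (p.edges.map (pairSum φ)).sum = φ u + φ v := by
  induction p with
  | nil => simp [add_self']
  | cons h p ih =>
    rename_i a b d
    rw [Walk.edges_cons, List.map_cons, List.sum_cons, ih, pairSum_mk]
    have := add_self' (φ b)
    calc φ a + φ b + (φ b + φ d) = φ a + (φ b + φ b) + φ d := by abel
      _ = φ a + φ d := by rw [this, add_zero]

lemma sum_univ {k : ℕ} (hk : 2 ≤ k) : ∑ x : Fin k → ZMod 2, x = 0 := by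
  classical
  funext i
  rw [Finset.sum_apply, Pi.zero_apply]
  obtain ⟨j, hj⟩ : ∃ j : Fin k, j ≠ i := by
    have : Nontrivial (Fin k) := Fin.nontrivial_iff_two_le.mpr hk
    exact exists_ne i
  have hij : (Pi.single j (1 : ZMod 2) : Fin k → ZMod 2) i = 0 := by
    rw [Pi.single_eq_of_ne (Ne.symm hj)]
  refine Finset.sum_involution (fun x _ => x + Pi.single j 1) ?_ ?_ ?_ ?_
  · intro x _
    rw [Pi.add_apply, hij, add_zero]
    exact CharTwo.add_self_eq_zero _
  · intro x _ _ h
    have h' := congrFun h j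
    simp at h'
  · intro x _; exact Finset.mem_univ _
  · intro x _
    simp only [add_assoc, add_self', add_zero]

/-- No set of `2 ^ k - 2` or `2 ^ k - 3` nonzero vectors of `𝔽₂ ^ k` sums to zero. -/
lemma sum_ne_zero {k : ℕ} (hk : 2 ≤ k) (T : Finset (Fin k → ZMod 2)) (h0 : (0 : Fin k → ZMod 2) ∉ T)
    (hT : T.card = 2 ^ k - 2 ∨ T.card = 2 ^ k - 3) (hT2 : 3 ≤ 2 ^ k) : ∑ x ∈ T, x ≠ 0 := by
  classical
  intro hsum
  have hcard : Fintype.card (Fin k → ZMod 2) = 2 ^ k := by simp [ZMod.card]
  set U := (Finset.univ \ T).erase 0 with hU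
  have h0U : (0 : Fin k → ZMod 2) ∈ Finset.univ \ T := by simp [h0]
  have hUc : U.card = 1 ∨ U.card = 2 := by
    rw [hU, Finset.card_erase_of_mem h0U, Finset.card_univ_sdiff, hcard]
    have : T.card ≤ 2 ^ k := by rw [← hcard]; exact Finset.card_le_univ T
    omega
  have hUs : ∑ x ∈ U, x = 0 := by
    have h1 : ∑ x ∈ Finset.univ \ T, x + ∑ x ∈ T, x = ∑ x : Fin k → ZMod 2, x :=
      Finset.sum_sdiff (Finset.subset_univ T)
    rw [hsum, sum_univ hk, add_zero] at h1
    have h2 := Finset.add_sum_erase (Finset.univ \ T) (fun x => x) h0U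
    simp only [zero_add] at h2
    rw [h2]; exact h1
  rcases hUc with h | h
  · obtain ⟨a, ha⟩ := Finset.card_eq_one.mp h
    rw [ha, Finset.sum_singleton] at hUs
    have : a ∈ U := by rw [ha]; simp
    rw [hU] at this
    exact (Finset.mem_erase.mp this).1 hUs
  · obtain ⟨a, b, hab, hUab⟩ := Finset.card_eq_two.mp h
    rw [hUab, Finset.sum_pair hab] at hUs
    exact hab (eq_of_add_eq_zero' hUs)

/-- **Answer to the question: no.**  Let `k ≥ 3` and let `n` be `2 ^ k - 1` or `2 ^ k`.  Then the
complete graph on `n` vertices has an optimal edge-colouring with no rainbow cycle of length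
`n - 2`. -/
theorem result (k : ℕ) (hk : 3 ≤ k) (n : ℕ) (hn : n = 2 ^ k - 1 ∨ n = 2 ^ k) :
    ∃ c : Sym2 (Fin n) → ℕ, IsOptimal c ∧
      ∀ (v : Fin n) (p : (⊤ : SimpleGraph (Fin n)).Walk v v),
        p.IsCycle → p.length = n - 2 → ¬ IsRainbow c p := by
  classical
  have h8 : 8 ≤ 2 ^ k := by
    calc 8 = 2 ^ 3 := by norm_num
      _ ≤ 2 ^ k := Nat.pow_le_pow_right (by norm_num) hk
  have hcard : Fintype.card (Fin k → ZMod 2) = 2 ^ k := by simp [ZMod.card]
  -- an injection of the vertices into `𝔽₂ ^ k`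
  obtain ⟨φ, hφ⟩ : ∃ φ : Fin n → (Fin k → ZMod 2), Function.Injective φ := by
    have : Fintype.card (Fin n) ≤ Fintype.card (Fin k → ZMod 2) := by
      rw [hcard, Fintype.card_fin]; omega
    obtain ⟨φ⟩ := Function.Embedding.nonempty_of_card_le this
    exact ⟨φ, φ.injective⟩
  let ψ : (Fin k → ZMod 2) → ℕ := fun x => (Fintype.equivFin (Fin k → ZMod 2) x : ℕ)
  have hψ : Function.Injective ψ := fun x y h =>
    (Fintype.equivFin (Fin k → ZMod 2)).injective (Fin.ext h)
  let c : Sym2 (Fin n) → ℕ := fun e => ψ (pairSum φ e)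
  have hne : ∀ x y : Fin n, x ≠ y → φ x + φ y ≠ 0 := fun x y hxy h =>
    hxy (hφ (eq_of_add_eq_zero' h))
  have hproper : IsProper c := by
    intro e he f hf hef ⟨v, hve, hvf⟩ h
    obtain ⟨y, rfl⟩ := Sym2.mem_iff_exists.mp hve
    obtain ⟨z, rfl⟩ := Sym2.mem_iff_exists.mp hvf
    have h1 : φ v + φ y = φ v + φ z := hψ h
    exact hef (by rw [hφ (add_left_cancel h1)])
  have hupper : numColours c ≤ 2 ^ k - 1 := by
    have hsub : c '' (⊤ : SimpleGraph (Fin n)).edgeSet ⊆
        (((Finset.univ.erase 0).image ψ : Finset ℕ) : Set ℕ) := by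
      rintro a ⟨e, he, rfl⟩
      induction e using Sym2.ind with
      | h x y =>
        simp only [mem_edgeSet, top_adj] at he
        simp only [Finset.coe_image, Set.mem_image, Finset.coe_erase, Finset.coe_univ,
          Set.mem_sdiff, Set.mem_univ, Set.mem_singleton_iff, true_and]
        exact ⟨φ x + φ y, hne x y he, rfl⟩
    calc numColours c ≤ (((Finset.univ.erase 0).image ψ : Finset ℕ) : Set ℕ).ncard :=
          Set.ncard_le_ncard hsub (Finset.finite_toSet _)
      _ = ((Finset.univ.erase (0 : Fin k → ZMod 2)).image ψ).card := Set.ncard_coe_finset _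
      _ ≤ (Finset.univ.erase (0 : Fin k → ZMod 2)).card := Finset.card_image_le
      _ = 2 ^ k - 1 := by
          rw [Finset.card_erase_of_mem (Finset.mem_univ _), Finset.card_univ, hcard]
  refine ⟨c, ⟨hproper, ?_⟩, ?_⟩
  · intro c' hc'
    refine hupper.trans ?_
    rcases hn with rfl | rfl
    · have hodd : Odd (Fintype.card (Fin (2 ^ k - 1))) := by
        rw [Fintype.card_fin]
        obtain ⟨m, rfl⟩ : ∃ m, k = m + 1 := ⟨k - 1, by omega⟩
        refine ⟨2 ^ m - 1, ?_⟩
        have : 1 ≤ 2 ^ m := Nat.one_le_two_pow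
        rw [pow_succ]; omega
      have := lower_odd hc' hodd (by rw [Fintype.card_fin]; omega)
      rwa [Fintype.card_fin] at this
    · have := lower_even hc'
      rwa [Fintype.card_fin] at this
  · intro v p _ hlen hrain
    unfold IsRainbow at hrain
    have hnodup : (p.edges.map (pairSum φ)).Nodup := by
      have : p.edges.map c = (p.edges.map (pairSum φ)).map ψ := by
        rw [List.map_map]; rfl
      rw [this] at hrain
      exact List.Nodup.of_map ψ hrain
    have hsum0 : (p.edges.map (pairSum φ)).sum = 0 := by rw [walk_sum, add_self']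
    set T := (p.edges.map (pairSum φ)).toFinset with hT
    have hTcard : T.card = n - 2 := by
      rw [hT, List.toFinset_card_of_nodup hnodup, List.length_map, Walk.length_edges, hlen]
    have hTsum : ∑ x ∈ T, x = 0 := by
      rw [hT, List.sum_toFinset _ hnodup, List.map_id']
      exact hsum0
    refine sum_ne_zero (by omega) T ?_ ?_ (by omega) hTsum
    · rw [hT, List.mem_toFinset, List.mem_map]
      rintro ⟨e, he, h0⟩
      have hedge := p.edges_subset_edgeSet he
      induction e using Sym2.ind with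
      | h x y =>
        simp only [mem_edgeSet, top_adj] at hedge
        exact hne x y hedge h0
    · rw [hTcard]; omega

end Pool.Agent.Results.MP_4bc86c_co.NoRainbowPowTwo
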